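import Pool.Agent.Helper32.B4.St

/-!
# Project B4 (MP_7d58db_an): module TE (an explicit test function)
-/

set_option autoImplicit false

open Metric Set Filter Topology MeasureTheory
open scoped ComplexConjugate Interval

namespace Pool.Agent.Helper43.B4

open Pool.Agent.Helper32.B4 Pool.Agent.Helper32.DX Pool.Agent.Helper64.C3

lemma poly_TE (l : List ℝ) (a b : ℝ) :
    ∫ v in a..b, ∑ i ∈ Finset.range l.length, l.getD i 0 * v ^ i =
      ∑ i ∈ Finset.range l.length, l.getD i 0 * ((b ^ (i + 1) - a ^ (i + 1)) / ((i : ℝ) + 1)) := by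
  rw [intervalIntegral.integral_finsetSum]
  · refine Finset.sum_congr rfl (fun i _ => ?_)
    rw [intervalIntegral.integral_const_mul, integral_pow]
  · intro i _
    exact (Continuous.intervalIntegrable (by fun_prop) _ _)

/-- the test function -/
noncomputable def sTE (u : ℝ) : ℝ := 10 - 21 * u + 24 * u ^ 2 - 10 * u ^ 3

lemma inner_TE (u : ℝ) : ∫ v in u..1, (6 - 3 * u - 2 * v) * sTE v =
    26 - 75 * u + 103 * u ^ 2 - 187 / 2 * u ^ 3 + 51 * u ^ 4 - 23 / 2 * u ^ 5 := by
  have h1 : ∀ v : ℝ, (6 - 3 * u - 2 * v) * sTE v = ∑ i ∈ Finset.range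
      [10 * (6 - 3 * u), -21 * (6 - 3 * u) - 20, 24 * (6 - 3 * u) + 42,
        -10 * (6 - 3 * u) - 48, 20].length,
      [10 * (6 - 3 * u), -21 * (6 - 3 * u) - 20, 24 * (6 - 3 * u) + 42,
        -10 * (6 - 3 * u) - 48, 20].getD i 0 * v ^ i := by
    intro v
    simp [Finset.sum_range_succ, sTE]
    ring
  simp only [h1]
  rw [poly_TE]
  simp [Finset.sum_range_succ]
  ring

lemma norm_TE : ∫ u in (0:ℝ)..1, sTE u ^ 2 = 997 / 35 := by
  have h1 : ∀ v : ℝ, sTE v ^ 2 = ∑ i ∈ Finset.range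
      ([100, -420, 921, -1208, 996, -480, 100] : List ℝ).length,
      ([100, -420, 921, -1208, 996, -480, 100] : List ℝ).getD i 0 * v ^ i := by
    intro v
    simp [Finset.sum_range_succ, sTE]
    ring
  simp only [h1]
  rw [poly_TE]
  simp [Finset.sum_range_succ]
  norm_num

lemma first_TE : ∫ u in (0:ℝ)..1, (10 - 24 * u + 16 * u ^ 2) * sTE u ^ 2 =
    ∑ i ∈ Finset.range ([1000, -6600, 20890, -40904, 53688, -48032, 28456, -10080, 1600] :
      List ℝ).length,
      ([1000, -6600, 20890, -40904, 53688, -48032, 28456, -10080, 1600] : List ℝ).getD i 0 *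
        ((1 ^ (i + 1) - 0 ^ (i + 1)) / ((i : ℝ) + 1)) := by
  have h1 : ∀ v : ℝ, (10 - 24 * v + 16 * v ^ 2) * sTE v ^ 2 = ∑ i ∈ Finset.range
      ([1000, -6600, 20890, -40904, 53688, -48032, 28456, -10080, 1600] : List ℝ).length,
      ([1000, -6600, 20890, -40904, 53688, -48032, 28456, -10080, 1600] : List ℝ).getD i 0 *
        v ^ i := by
    intro v
    simp [Finset.sum_range_succ, sTE]
    ring
  simp only [h1]
  rw [poly_TE]

lemma second_TE : ∫ u in (0:ℝ)..1, sTE u * ∫ v in u..1, (6 - 3 * u - 2 * v) * sTE v =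
    ∑ i ∈ Finset.range ([260, -1296, 3229, -5158, 11391 / 2, -4460, 4801 / 2, -786, 115] :
      List ℝ).length,
      ([260, -1296, 3229, -5158, 11391 / 2, -4460, 4801 / 2, -786, 115] : List ℝ).getD i 0 *
        ((1 ^ (i + 1) - 0 ^ (i + 1)) / ((i : ℝ) + 1)) := by
  have h1 : ∀ v : ℝ, sTE v * (26 - 75 * v + 103 * v ^ 2 - 187 / 2 * v ^ 3 + 51 * v ^ 4 -
      23 / 2 * v ^ 5) = ∑ i ∈ Finset.range
      ([260, -1296, 3229, -5158, 11391 / 2, -4460, 4801 / 2, -786, 115] : List ℝ).length,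
      ([260, -1296, 3229, -5158, 11391 / 2, -4460, 4801 / 2, -786, 115] : List ℝ).getD i 0 *
        v ^ i := by
    intro v
    simp [Finset.sum_range_succ, sTE]
    ring
  simp only [inner_TE, h1]
  rw [poly_TE]

theorem hTE : StTE := by
  refine ⟨sTE, by unfold sTE; fun_prop, ?_, ?_⟩
  · rw [norm_TE]
    norm_num
  · rw [norm_TE]
    unfold Qf
    rw [first_TE, second_TE]
    simp [Finset.sum_range_succ]
    norm_num

end Pool.Agent.Helper43.B4
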